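import Pool.Agent.Helper43.DB.Goals

/-!
# Project DB (MP_9b2a83_an): goals `G_INF` and `G_UP`

Adapted from `Pool/Agent/Helper39/Net/Linf.lean`, `Bounds.lean` and `Parts.lean`.
-/

set_option autoImplicit false

namespace Pool.Agent.Helper94.DB.UP

open Pool.Agent.Helper39.Net Function Pool.Agent.Helper43.DB Set

theorem inf : G_INF := by
  classical
  intro k L T hT Y hY
  have h : ∀ q : Equiv.Perm (Fin (k + 1)) × (Fin (k + 1) → Bool),
      ∃ S : Finset ((Fin (k + 1) → ℝ) × (Fin (k + 1) → ℝ)),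
      S.card ≤ Y.card * T ∧
      ∀ x ∈ Y, ∀ y ∈ Y, Reach dInf (S : Set _) x y (dOne (tr q.1 q.2 x) (tr q.1 q.2 y)) := by
    intro q
    obtain ⟨S, hS, hr⟩ := hT (Y.image (tr q.1 q.2)) (Finset.card_image_le.trans hY)
    refine ⟨S.image fun p => (trInv q.1 q.2 p.1, trInv q.1 q.2 p.2), ?_, ?_⟩
    · exact Finset.card_image_le.trans (hS.trans (Nat.mul_le_mul_right _ Finset.card_image_le))
    · intro x hx y hy
      have := (hr _ (Finset.mem_image_of_mem _ hx) _ (Finset.mem_image_of_mem _ hy)).map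
        (ρ' := dInf) (S' := ((S.image fun p => (trInv q.1 q.2 p.1, trInv q.1 q.2 p.2) :
          Finset _) : Set _)) (trInv q.1 q.2) (dInf_trInv q.1 q.2)
        (fun p hp => Finset.mem_coe.2 (Finset.mem_image_of_mem _ hp))
      rwa [trInv_tr, trInv_tr] at this
  choose S hS hr using h
  refine ⟨Finset.univ.biUnion S, ?_, ?_⟩
  · refine Finset.card_biUnion_le.trans ((Finset.sum_le_sum fun q _ => hS q).trans ?_)
    rw [Finset.sum_const, Finset.card_univ, Fintype.card_prod, Fintype.card_perm, Fintype.card_fun,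
      Fintype.card_fin, Fintype.card_bool, smul_eq_mul]
    apply le_of_eq
    ring
  · intro x hx y hy
    obtain ⟨σ, s, hσ⟩ := exists_cone x y
    refine ((hr (σ, s) x hx y hy).mono hσ).mono_set fun p hp => ?_
    exact Finset.mem_coe.2 (Finset.mem_biUnion.2 ⟨(σ, s), Finset.mem_univ _, hp⟩)

/-! ### One -/

theorem exact_one (k : ℕ) (T : ℕ → ℕ) (h : ∀ L, ExNet (dOne (d := k + 1)) L (T L))
    (M : Finset (Fin (k + 1) → ℝ)) (hM : M.Nonempty) :
    Embeds dOne M 1 (M.card * T (Nat.clog 2 M.card)) := by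
  obtain ⟨S, hS, hr⟩ := h (Nat.clog 2 M.card) M (Nat.le_pow_clog (by norm_num) _)
  refine (embeds_of_reach dOne_symm dOne_tri dOne_self dOne_pos M hM 1 S ?_).mono hS
  intro x hx y hy
  rw [one_mul]
  exact hr x hx y hy

theorem exact_inf (k : ℕ) (T : ℕ → ℕ) (h : ∀ L, ExNet (dInf (d := k + 1)) L (T L))
    (M : Finset (Fin (k + 1) → ℝ)) (hM : M.Nonempty) :
    Embeds dInf M 1 (M.card * T (Nat.clog 2 M.card)) := by
  obtain ⟨S, hS, hr⟩ := h (Nat.clog 2 M.card) M (Nat.le_pow_clog (by norm_num) _)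
  refine (embeds_of_reach dInf_symm dInf_tri dInf_self dInf_pos M hM 1 S ?_).mono hS
  intro x hx y hy
  rw [one_mul]
  exact hr x hx y hy

theorem up_one (k : ℕ) (T : ℕ → ℕ) (h : ∀ L, ExNet (dOne (d := k + 1)) L (T L)) (c : ℝ)
    (hc : 1 < c) (M : Finset (Fin (k + 1) → ℝ)) (hM : M.Nonempty) :
    Embeds dOne M c (M.card * (1 + 6 * 9 ^ (k + 1) * T ((k + 1) * ell c))) := by
  have hl6 : 6 ≤ lam c := le_max_left _ _
  have hc0 : 0 < c - 1 := by linarith
  obtain ⟨S, hS, hr⟩ := spanner (dOne_symm (d := k + 1)) dOne_tri dOne_self dOne_pos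
    (T ((k + 1) * ell c)) (9 ^ (k + 1)) ((k + 1) * ell c) (lam c) hl6
    (fun Y hY => h _ Y hY)
    (by
      intro s z r hr hsep hball
      have := dOne_packing s z (4 * r) r hr (by linarith) hball hsep
      have e : 2 * (4 * r) / r + 1 = 9 := by field_simp; norm_num
      rw [e] at this
      exact_mod_cast this)
    (by
      intro s z r hr hsep hball
      have := dOne_packing s z (4 * lam c ^ 2 * r) r hr (by positivity) hball hsep
      have e : 2 * (4 * lam c ^ 2 * r) / r + 1 = 8 * lam c ^ 2 + 1 := by field_simp; ring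
      rw [e] at this
      have h2 : (8 * lam c ^ 2 + 1) ^ (k + 1) ≤ ((2 : ℝ) ^ ell c) ^ (k + 1) :=
        pow_le_pow_left₀ (by positivity) (le_two_pow_ell c) _
      rw [← pow_mul, mul_comm (ell c)] at h2
      exact_mod_cast this.trans h2)
    M
  refine (embeds_of_reach dOne_symm dOne_tri dOne_self dOne_pos M hM c S ?_).mono hS
  intro x hx y hy
  refine (hr x hx y hy).mono (mul_le_mul_of_nonneg_right ?_ (dOne_nonneg _ _))
  have h8 : 8 / (c - 1) ≤ lam c := le_max_right _ _
  have : 8 / lam c ≤ c - 1 := by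
    rw [div_le_iff₀ hc0] at h8
    rw [div_le_iff₀ (lam_pos c)]
    linarith
  linarith

theorem up_inf (k : ℕ) (T : ℕ → ℕ) (h : ∀ L, ExNet (dInf (d := k + 1)) L (T L)) (c : ℝ)
    (hc : 1 < c) (M : Finset (Fin (k + 1) → ℝ)) (hM : M.Nonempty) :
    Embeds dInf M c (M.card * (1 + 6 * 9 ^ (k + 1) * T ((k + 1) * ell c))) := by
  have hl6 : 6 ≤ lam c := le_max_left _ _
  have hc0 : 0 < c - 1 := by linarith
  obtain ⟨S, hS, hr⟩ := spanner (dInf_symm (d := k + 1)) dInf_tri dInf_self dInf_pos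
    (T ((k + 1) * ell c)) (9 ^ (k + 1)) ((k + 1) * ell c) (lam c) hl6
    (fun Y hY => h _ Y hY)
    (by
      intro s z r hr hsep hball
      have := dInf_packing s z (4 * r) r hr (by linarith) hball hsep
      have e : 2 * (4 * r) / r + 1 = 9 := by field_simp; norm_num
      rw [e] at this
      exact_mod_cast this)
    (by
      intro s z r hr hsep hball
      have := dInf_packing s z (4 * lam c ^ 2 * r) r hr (by positivity) hball hsep
      have e : 2 * (4 * lam c ^ 2 * r) / r + 1 = 8 * lam c ^ 2 + 1 := by field_simp; ring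
      rw [e] at this
      have h2 : (8 * lam c ^ 2 + 1) ^ (k + 1) ≤ ((2 : ℝ) ^ ell c) ^ (k + 1) :=
        pow_le_pow_left₀ (by positivity) (le_two_pow_ell c) _
      rw [← pow_mul, mul_comm (ell c)] at h2
      exact_mod_cast this.trans h2)
    M
  refine (embeds_of_reach dInf_symm dInf_tri dInf_self dInf_pos M hM c S ?_).mono hS
  intro x hx y hy
  refine (hr x hx y hy).mono (mul_le_mul_of_nonneg_right ?_ (dInf_nonneg _ _))
  have h8 : 8 / (c - 1) ≤ lam c := le_max_right _ _
  have : 8 / lam c ≤ c - 1 := by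
    rw [div_le_iff₀ hc0] at h8
    rw [div_le_iff₀ (lam_pos c)]
    linarith
  linarith

/-- From networks to the ratios. -/
theorem ratios_le {E : Type} {ρ : E → E → ℝ} {c : ℝ} {B : ℕ}
    (h : ∀ M : Finset E, M.Nonempty → Embeds ρ M c (M.card * B)) : CN ρ c ≤ (B : ℝ) := by
  have hne : (Ratios ρ c).Nonempty := ⟨_, 2, le_rfl, rfl⟩
  refine csSup_le hne ?_
  rintro r ⟨n, hn, rfl⟩
  have h1 : n * B ∈ Enough ρ n c := by
    intro M hM
    have hne : M.Nonempty := Finset.card_pos.1 (by omega)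
    have := h M hne
    rwa [hM] at this
  have h2 : (EN ρ n c : ℝ) ≤ n * B := by exact_mod_cast EN_le h1
  have hn0 : (0 : ℝ) < n := by exact_mod_cast (by omega : 0 < n)
  rw [div_le_iff₀ hn0]
  linarith

theorem exact_le {E : Type} {ρ : E → E → ℝ} {T : ℕ → ℕ}
    (h : ∀ M : Finset E, M.Nonempty → Embeds ρ M 1 (M.card * T (Nat.clog 2 M.card))) (n : ℕ)
    (hn : 1 ≤ n) : EN ρ n 1 ≤ n * T (Nat.clog 2 n) := by
  refine EN_le fun M hM => ?_
  have hne : M.Nonempty := Finset.card_pos.1 (by omega)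
  have := h M hne
  rwa [hM] at this

theorem up : G_UP := by
  intro k T
  refine ⟨fun h => ⟨exact_le (exact_one k T h), fun c hc => ?_⟩,
    fun h => ⟨exact_le (exact_inf k T h), fun c hc => ?_⟩⟩
  · have := ratios_le (ρ := dOne (d := k + 1)) (c := c)
      (B := 1 + 6 * 9 ^ (k + 1) * T ((k + 1) * ell c)) (up_one k T h c hc)
    push_cast at this
    exact this
  · have := ratios_le (ρ := dInf (d := k + 1)) (c := c)
      (B := 1 + 6 * 9 ^ (k + 1) * T ((k + 1) * ell c)) (up_inf k T h c hc)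
    push_cast at this
    exact this

end Pool.Agent.Helper94.DB.UP
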